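import Pool.Agent.Work.MP_26c40d_31.Statement
import Pool.Agent.Work.MP_26c40d_31.Main

/-!
# Benson's conjecture on V ⊗ V*: small dimensions (helper31)

The definitions used in the statement are in `Pool/Agent/Work/MP_26c40d_31/Statement.lean`.
-/

set_option autoImplicit false

namespace Pool.Agent.Results.MP_26c40d_al.DimensionSeven

open Module Pool.Benson

/-- Benson's conjecture holds for all indecomposable representations of finite 2-groups of
dimension 1, 3 and 5, and for those of dimension 7 for which some `z` in `G` with `z ^ 2 = 1` on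
`V` has one of the properties: `z - 1` has rank 3; or `z` is central and `z - 1` has rank 1; or
`z - 1` has rank 2 and the centralizer of `z` acts nontrivially on
`ker (z - 1) / im (z - 1)`. -/
theorem result (G : Type) [Group G] [Finite G] (hG : IsPGroup 2 G)
    (k : Type) [Field k] [IsAlgClosed k] [CharP k 2]
    (V : Type) [AddCommGroup V] [Module k V] [FiniteDimensional k V] (ρ : Representation k G V)
    (hV : IsIndec ρ) (hodd : Odd (finrank k V)) (h7 : finrank k V ≤ 7)
    (hex : finrank k V = 7 → ∃ z : G, ρ z * ρ z = 1 ∧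
      (finrank k (LinearMap.range (ρ z - 1)) = 3 ∨
      (finrank k (LinearMap.range (ρ z - 1)) = 1 ∧ ∀ g, ρ z * ρ g = ρ g * ρ z) ∨
      (finrank k (LinearMap.range (ρ z - 1)) = 2 ∧ ∃ g, ρ z * ρ g = ρ g * ρ z ∧
        ∃ v ∈ LinearMap.ker (ρ z - 1), ρ g v - v ∉ LinearMap.range (ρ z - 1)))) :
    BensonProperty ρ :=
  Pool.BenStar.concl_seven hG ρ hV hodd h7 hex

end Pool.Agent.Results.MP_26c40d_al.DimensionSeven
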