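import Pool.Agent.Work.MP_26c40d_69.Statement
import Pool.Agent.Work.MP_26c40d_69.FIN4
import Pool.Agent.Work.MP_26c40d_69.THR

/-!
# Benson's conjecture on V ⊗ V*: summands of odd dimension (helper69)

The definitions used in the statement are in `Pool/Agent/Work/MP_26c40d_69/Statement.lean`
(`IsCopy`, `IsSummand`, `IsSelfDual`, `EvenPart`, `OddPartSelfDual`, `cyclicRestr`,
`OneOddBlock`) and in `Pool/Agent/Work/MP_26c40d_31/Statement.lean` (`IsInv`, `IsIndec`,
`IsIndecIn`, `restr`, `BensonProperty`). Blocks CYS, THR by helper31, CYD, THRa by helper16.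
-/

set_option autoImplicit false

namespace Pool.Agent.Results.MP_26c40d_al.SelfDualSummands

open Module Pool.Benson Pool.Ben69

/-- Let `k` be algebraically closed of characteristic 2. (1) A self-dual indecomposable
representation `W` of odd dimension above one occurs an even number of times in every
decomposition of `V ⊗ V*` into indecomposables. If `V` is indecomposable of odd dimension then
`W` is not a direct summand of `V ⊗ V*` in the following cases: (2) the restriction of `W` along
some homomorphism `H → G` is the direct sum of a self-dual indecomposable representation of odd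
dimension above one satisfying Benson's conjecture and of even-dimensional indecomposables;
(3) some `g` of 2-power order acts on `W` with exactly one Jordan block of odd size, and the size
is above one; (4) `G` is a finite 2-group and `W` is indecomposable of dimension three. -/
theorem result (k : Type) [Field k] [IsAlgClosed k] [CharP k 2] (G V W : Type) [Group G]
    [AddCommGroup V] [Module k V] [FiniteDimensional k V] [AddCommGroup W] [Module k W]
    [FiniteDimensional k W] (ρ : Representation k G V) (σ : Representation k G W) :
    (IsIndec σ → Odd (finrank k W) → finrank k W ≠ 1 → IsSelfDual σ →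
      ∀ (n : ℕ) (X : Fin n → Submodule k (TensorProduct k V (Dual k V))),
      DirectSum.IsInternal X → (∀ i, IsInv (ρ.tprod ρ.dual) (X i)) →
      (∀ i, IsIndecIn (ρ.tprod ρ.dual) (X i)) →
      Even (Nat.card {i // IsCopy (ρ.tprod ρ.dual) (X i) σ})) ∧
    (IsIndec ρ → Odd (finrank k V) → ∀ (H : Type) [Group H] (φ : H →* G),
      OddPartSelfDual (MonoidHom.comp σ φ) → ¬ IsSummand σ (ρ.tprod ρ.dual)) ∧
    (IsIndec ρ → Odd (finrank k V) → ∀ g : G, (∃ a : ℕ, g ^ 2 ^ a = 1) → OneOddBlock σ g →
      ¬ IsSummand σ (ρ.tprod ρ.dual)) ∧
    (IsIndec ρ → Odd (finrank k V) → Finite G → IsPGroup 2 G → IsIndec σ → finrank k W = 3 →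
      ¬ IsSummand σ (ρ.tprod ρ.dual)) :=
  ⟨fun hσ hodd h1 hd n X hX hXi hXd => part_one ρ σ hσ hodd h1 hd n X hX hXi hXd,
    fun hV hVo _ _ φ h => part_two_summand ρ hV hVo σ φ h,
    fun hV hVo g hg h => part_three ρ hV hVo σ g hg h,
    fun hV hVo _ hG hσ h3 => part_four stmt_THR hG ρ hV hVo σ hσ h3⟩

end Pool.Agent.Results.MP_26c40d_al.SelfDualSummands
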