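import Pool.Agent.Work.MP_26c40d_sq.Statement
import Pool.Agent.Work.MP_26c40d_sq.Final

/-!
# The squaring map of an odd-dimensional representation of a 2-group does not split (helper31)

The definitions used in the statement are in `Pool/Agent/Work/MP_26c40d_sq/Statement.lean`
(`swap`, `HasSwapTrivialSummand`, `HasAnisotropicSquare`) and in
`Pool/Agent/Work/MP_26c40d_31/Statement.lean` (`IsInv`, `IsIndec`).
-/

set_option autoImplicit false

namespace Pool.Agent.Results.MP_26c40d_al.SquaringMap

open Module Pool.Benson Pool.SqSplit

/-- Let `V` be an indecomposable representation of odd dimension of a finite 2-group over an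
algebraically closed field of characteristic 2. The following are equivalent: `V` is the trivial
line; `V ⊗ V` has a nonzero direct summand, as a representation of `G × Z/2`, on which the swap
acts trivially; the same for `V ⊗ V*` and the involution `x ⊗ θ y ↦ y ⊗ θ x` given by some
equivariant isomorphism `θ : V ≃ V*`; there is an equivariant symmetric bilinear map
`β : V × V → W` with `dim W = dim V` and `β (x, x) ≠ 0` for `x ≠ 0`. -/
theorem result (k : Type) [Field k] [IsAlgClosed k] [CharP k 2] (G : Type) [Group G] [Finite G]
    (hG : IsPGroup 2 G) (V : Type) [AddCommGroup V] [Module k V] [FiniteDimensional k V]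
    (ρ : Representation k G V) (hV : IsIndec ρ) (hodd : Odd (finrank k V)) :
    List.TFAE [finrank k V = 1,
      HasSwapTrivialSummand ρ ρ (LinearEquiv.refl k V),
      ∃ θ : V ≃ₗ[k] Dual k V, (∀ g v, θ (ρ g v) = ρ.dual g (θ v)) ∧
        HasSwapTrivialSummand ρ ρ.dual θ,
      HasAnisotropicSquare ρ] :=
  concl hG ρ hV hodd

end Pool.Agent.Results.MP_26c40d_al.SquaringMap
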