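import Pool.Agent.Work.MP_26c40d_31.Statement
import Pool.Agent.Work.MP_26c40d_31.Main

/-!
# Benson's conjecture on V ⊗ V*: the class generated by central transvections (helper31)

The definitions used in the statement are in `Pool/Agent/Work/MP_26c40d_31/Statement.lean`.
-/

set_option autoImplicit false

namespace Pool.Agent.Results.MP_26c40d_al.TransvectionClass

open Module Pool.Benson

/-- Over an algebraically closed field of characteristic 2, every odd-dimensional representation
in the class `Reducible` satisfies the conclusion of Benson's conjecture. -/
theorem result (k : Type) [Field k] [IsAlgClosed k] [CharP k 2] (G V : Type) [Group G]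
    [AddCommGroup V] [Module k V] (ρ : Representation k G V) (hodd : Odd (finrank k V))
    (h : Reducible k G V ρ) : BensonProperty ρ :=
  Pool.BenStar.benson_of_reducible h hodd

end Pool.Agent.Results.MP_26c40d_al.TransvectionClass
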